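import Mathlib
import Pool.Agent.Q75.ApDef
import Pool.Agent.Q75.ApG

/-!
# Multiplicative perturbations preserve Baker wandering domains

Let `f` be a transcendental entire function with a Baker wandering domain `U` and let `g` be
meromorphic with `g → 1` along `U_n`.  Then `f g` has a Baker wandering domain.

Outline.  A continuum `E ⊂ U_n` around `0` is mapped by the iterates of `f` to continua around larger
and larger discs; with Harnack's inequality for `log |f^m|` this gives `log |f^{m+1}| / log |f^m| → ∞`.
By the three circles theorem `log |f^m|` varies on a fixed compact connected set by a fixed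
proportion of its size, so some derivative is large and some `U_n` contains a round annulus
`{| log |w| - ℓ | < ε ℓ}` with `ε` fixed and `ℓ` large.  The three circles theorem and Harnack's
inequality on this annulus show that, along the orbit `x_k` of a point, `U_{n+k}` contains
`{| log |w| - log |x_k| | < ε log |x_k|}`.  An orbit of `f g` starting in a thinner annulus stays in
these annuli: the error made at step `j` is propagated by `f^{k-j}` with a factor
`O(log |x_k| / log |x_j|)`, and the sum of `1 / log |x_j|` is small.  Harnack's inequality shows that
the Fatou components of `f g` obtained in this way are pairwise different, hence bounded and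
surrounding `0`.
-/

set_option autoImplicit false

namespace Pool.Agent.Results.MP_409118_an.ProductBWD

open Set Filter Pool.Agent.TH224.SC Pool.Agent.Q75.Ap

/-- Let `f` be a transcendental entire function with a Baker wandering domain `U 0` (with
`U n` the Fatou component containing `f^n(U 0)`), and let `g` be meromorphic in the plane with
`sup_{U n} |g - 1| → 0`.  Then the product `f g` (in normal form) is a transcendental meromorphic
function which has a Baker wandering domain. -/
theorem result (f g : ℂ → ℂ) (U : ℕ → Set ℂ) (hf : TransEntire f) (hU : IsBWD f U)
    (hg : MeromorphicNFOn g univ)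
    (hlim : ∀ ε : ℝ, 0 < ε → ∀ᶠ n in atTop, ∀ z ∈ U n, ‖g z - 1‖ < ε) :
    TransMero (toMeromorphicNFOn (fun z => f z * g z) univ) ∧
      ∃ V : ℕ → Set ℂ, IsBWD (toMeromorphicNFOn (fun z => f z * g z) univ) V := by
  obtain ⟨x, σ, h⟩ := main hf hU hg hlim
  exact ⟨h.trans, _, h.V_bwd⟩

end Pool.Agent.Results.MP_409118_an.ProductBWD
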